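import Pool.Agent.Lib.MP_feab4e_co.LongestPaths

/-! MP_feab4e_co, Q2: every finite connected graph with no induced path on five vertices has a
vertex lying on all its longest paths. -/

namespace Pool.Agent.Results.MP_feab4e_co.P5Free

open SimpleGraph MPfeab4e

theorem noP5_of_isEmpty {V : Type*} {G : SimpleGraph V} (h : IsEmpty (pathGraph 5 ↪g G)) :
    NoP5 G := by
  intro a b c d e hab hbc hcd hde hac had hae hbd hbe hce
  have hba := hab.symm
  have hcb := hbc.symm
  have hdc := hcd.symm
  have hed := hde.symm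
  have hca : ¬ G.Adj c a := fun h => hac h.symm
  have hda : ¬ G.Adj d a := fun h => had h.symm
  have hea : ¬ G.Adj e a := fun h => hae h.symm
  have hdb : ¬ G.Adj d b := fun h => hbd h.symm
  have heb : ¬ G.Adj e b := fun h => hbe h.symm
  have hec : ¬ G.Adj e c := fun h => hce h.symm
  have n1 : a ≠ c := fun h => had (h ▸ hcd)
  have n2 : a ≠ d := fun h => hac (h ▸ hdc)
  have n3 : a ≠ e := fun h => had (h ▸ hed)
  have n4 : b ≠ d := fun h => hbe (h ▸ hde)
  have n5 : b ≠ e := fun h => hbd (h ▸ hed)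
  have n6 : c ≠ e := fun h => hbe (h ▸ hbc)
  have key : ∀ i j : Fin 5, (pathGraph 5).Adj i j ↔
      G.Adj ((![a, b, c, d, e] : Fin 5 → V) i) ((![a, b, c, d, e] : Fin 5 → V) j) := by
    intro i j
    rw [pathGraph_adj]
    fin_cases i <;> fin_cases j <;> simp [*]
  have hinj : Function.Injective (![a, b, c, d, e] : Fin 5 → V) := by
    intro i j hij
    fin_cases i <;> fin_cases j <;> simp [n1, n2, n3, n4, n5, n6, n1.symm, n2.symm, n3.symm,
      n4.symm, n5.symm, n6.symm, hab.ne, hbc.ne, hcd.ne, hde.ne, hab.ne', hbc.ne', hcd.ne',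
      hde.ne'] at hij ⊢
  exact h.false ⟨⟨![a, b, c, d, e], hinj⟩, fun {i j} => (key i j).symm⟩

theorem cn_univ {V : Type*} {G : SimpleGraph V} (h : G.Connected) : Cn G Set.univ := by
  rintro p ⟨a, _, ha⟩ hcl b _
  obtain ⟨w⟩ := h.preconnected a b
  induction w with
  | nil => exact ha
  | cons hadj w ih => exact ih trivial (hcl _ trivial _ trivial hadj ha) trivial

/-- Every finite connected `P_5`-free graph has a vertex lying on all its longest paths. -/
theorem result {V : Type*} [Fintype V] (G : SimpleGraph V) (hconn : G.Connected)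
    (hP5 : IsEmpty (pathGraph 5 ↪g G)) :
    ∃ v : V, ∀ (a b : V) (p : G.Walk a b), p.IsPath →
      (∀ (c d : V) (q : G.Walk c d), q.IsPath → q.length ≤ p.length) → v ∈ p.support := by
  have := hconn.nonempty
  obtain ⟨v, hv⟩ := MPfeab4e.main (cn_univ hconn) (noP5_of_isEmpty hP5)
  refine ⟨v, fun a b p hp hmax => hv _ ⟨⟨p.isChain_adj_support, hp.support_nodup⟩, ?_⟩⟩
  intro l hl
  rcases l.eq_nil_or_concat with rfl | ⟨l', x, hl'⟩
  · simp
  · have hne : l ≠ [] := by rintro rfl; simp at hl'
    have hs : (Walk.ofSupport l hne hl.1).support = l := Walk.support_ofSupport hne hl.1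
    have h1 := hmax _ _ (Walk.ofSupport l hne hl.1) (Walk.IsPath.mk' (by rw [hs]; exact hl.2))
    have h2 := Walk.length_support (Walk.ofSupport l hne hl.1)
    rw [hs] at h2
    rw [Walk.length_support]
    omega

end Pool.Agent.Results.MP_feab4e_co.P5Free
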